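import Pool.Agent.helper66.SL.SpecA

/-!
# sl:EWD — the value at `e` does not depend on the tope
-/

set_option autoImplicit false

namespace Pool.Agent.helper66.SL

open Pool.Agent.helper52.FC

theorem EWD_same (hCHN : CHN) (hPHI : PHI) {E : Type} [Finite E] {L : Set (E → SignType)}
    {F : (E → SignType) → Submodule ℝ (E → ℝ)} (hG : Good L) (hCD : CD L F)
    (a : (E → SignType) → E → ℝ)
    (ha : ∀ S, IsTope L S → ∀ e, Wall L S e → Comp L F S e (a S) (a (fl S e)))
    {S R : E → SignType} (hS : IsTope L S) (hR : IsTope L R) {e : E} (hSe : Wall L S e) (hRe : Wall L R e)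
    (h : S e = R e) : a S e = a R e := by
  refine hCHN E L hG e (fun T => a S e = a T e) S R hS hR hSe hRe h rfl ?_
  intro S1 S2 Z h1 h2 hZ hZe hZ1 hZ2 hw1 hw2 _ _ hQ
  obtain ⟨f, _, hf⟩ := hPHI E L F hG hCD Z hZ a (fun T hT _ g hg _ => ha T hT g hg)
  have e1 := hf S1 h1 hZ1 e hw1 hZe
  have e2 := hf S2 h2 hZ2 e hw2 hZe
  exact hQ.trans (e1.trans e2.symm)

theorem EWD_proof (hCHN : CHN) (hPHI : PHI) : EWD := by
  intro E _ L F hG hCD a ha S R hS hR e hSe hRe
  by_cases h : S e = R e
  · exact EWD_same hCHN hPHI hG hCD a ha hS hR hSe hRe h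
  · have h1 : S e = -R e := sne (tope_supp hG.om hG.simple hS e) (tope_supp hG.om hG.simple hR e) h
    have hw : Wall L (fl R e) e := by
      unfold Wall
      rw [fl_fl]
      exact hR
    have h2 := EWD_same hCHN hPHI hG hCD a ha hS hRe hSe hw (by rw [fl_same]; exact h1)
    rw [h2]
    exact ((ha R hR e hRe).1).symm

end Pool.Agent.helper66.SL
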