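import Pool.Agent.helper66.SL.SpecA

/-!
# sl:REA — realization
-/

set_option autoImplicit false

namespace Pool.Agent.helper66.SL

open Pool.Agent.helper52.FC

/-- the sign vectors of a space of functions are those of an arrangement -/
theorem REA_vec {E : Type} [Finite E] (W : Submodule ℝ (E → ℝ)) :
    ∃ (d : ℕ) (v : E → EuclideanSpace ℝ (Fin d)), ∀ Y : E → SignType,
      Y ∈ arr v ↔ ∃ f ∈ W, ∀ e, Y e = SignType.sign (f e) := by
  have := Fintype.ofFinite E
  have hd : Module.finrank ℝ (EuclideanSpace ℝ (Fin (Module.finrank ℝ W))) = Module.finrank ℝ W :=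
    finrank_euclideanSpace_fin
  let β : EuclideanSpace ℝ (Fin (Module.finrank ℝ W)) ≃ₗ[ℝ] W := LinearEquiv.ofFinrankEq _ _ hd
  let φ : E → (EuclideanSpace ℝ (Fin (Module.finrank ℝ W)) →ₗ[ℝ] ℝ) := fun e =>
    (LinearMap.proj e : (E → ℝ) →ₗ[ℝ] ℝ) ∘ₗ W.subtype ∘ₗ β.toLinearMap
  let v : E → EuclideanSpace ℝ (Fin (Module.finrank ℝ W)) := fun e =>
    (InnerProductSpace.toDual ℝ _).symm (LinearMap.toContinuousLinearMap (φ e))
  have hv : ∀ e x, inner ℝ (v e) x = (β x : E → ℝ) e := by
    intro e x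
    have h1 : inner ℝ (v e) x = LinearMap.toContinuousLinearMap (φ e) x :=
      InnerProductSpace.toDual_symm_apply
    rw [h1]
    rfl
  refine ⟨_, v, fun Y => ?_⟩
  constructor
  · rintro ⟨x, hx⟩
    refine ⟨(β x : E → ℝ), (β x).2, fun e => ?_⟩
    rw [hx e, hv]
  · rintro ⟨f, hf, hY⟩
    refine ⟨β.symm ⟨f, hf⟩, fun e => ?_⟩
    rw [hv, LinearEquiv.apply_symm_apply]
    exact hY e

theorem REA_sign {s : SignType} (hs : s ≠ 0) (y : ℝ) : 0 < (s : ℝ) * y ↔ SignType.sign y = s := by
  cases s with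
  | zero => exact absurd rfl hs
  | pos =>
    have h1 : ((SignType.pos : SignType) : ℝ) = 1 := rfl
    rw [h1, one_mul]
    exact sign_eq_one_iff.symm
  | neg =>
    have h1 : ((SignType.neg : SignType) : ℝ) = -1 := rfl
    rw [h1, neg_one_mul, neg_pos]
    exact sign_eq_neg_one_iff.symm

theorem REA_self {s : SignType} (hs : s ≠ 0) : 0 < (s : ℝ) * (s : ℝ) := by
  cases s with
  | zero => exact absurd rfl hs
  | pos =>
    have h1 : ((SignType.pos : SignType) : ℝ) = 1 := rfl
    rw [h1]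
    norm_num
  | neg =>
    have h1 : ((SignType.neg : SignType) : ℝ) = -1 := rfl
    rw [h1]
    norm_num

theorem REA_dist {E : Type} [Finite E] {T R : E → SignType} {e : E} (h : T e ≠ R e) (h' : -T e = R e) :
    dist (fl T e) R < dist T R := by
  unfold dist
  refine Set.ncard_lt_ncard ⟨?_, ?_⟩ (Set.toFinite _)
  · intro g hg
    by_cases hge : g = e
    · rw [hge]
      exact h
    · have h1 : fl T e g ≠ R g := hg
      rw [fl_ne T hge] at h1
      exact h1
  · intro hs
    have h1 : e ∈ {g | fl T e g ≠ R g} := hs h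
    have h2 : fl T e e ≠ R e := h1
    rw [fl_same] at h2
    exact h2 h'

theorem REA_proof (hSGN : SGN) : REA := by
  intro E _ L F hG hCD hFull
  obtain ⟨W, hW⟩ : ∃ W : Submodule ℝ (E → ℝ), ∀ f, f ∈ W ↔ Lin L F f :=
    ⟨{ carrier := {f | Lin L F f}
       add_mem' := fun {a b} ha hb Z hZ => (F Z).add_mem (ha Z hZ) (hb Z hZ)
       zero_mem' := fun Z hZ => (F Z).zero_mem
       smul_mem' := fun r {a} ha Z hZ => (F Z).smul_mem r (ha Z hZ) }, fun f => Iff.rfl⟩
  obtain ⟨d, v, hv⟩ := REA_vec W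
  refine ⟨d, v, ?_⟩
  have hL := hG.om
  have hs := hG.simple
  -- topes of `L` are sign vectors of `W`
  have key1 : ∀ X : E → SignType, IsTope L X → X ∈ arr v := by
    intro X hX
    have h0 := tope_supp hL hs hX
    obtain ⟨f, hf, hfw⟩ := hFull X hX (fun i => (X i : ℝ))
    refine (hv X).2 ⟨f, (hW f).2 hf, fun e => ?_⟩
    have h1 : ∀ i, Wall L X i → 0 < (X i : ℝ) * f i := by
      intro i hi
      rw [hfw i hi]
      exact REA_self (h0 i)
    exact ((REA_sign (h0 e) _).1 (hSGN E L F hG hCD f hf X hX h1 e)).symm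
  refine recon_eq hL (arr_om v) hs.loop ?_ ?_
  · intro e
    obtain ⟨T, hT⟩ := exists_tope hL
    exact ⟨T, key1 T hT, tope_supp hL hs hT e⟩
  · intro X hX0
    constructor
    · intro hX
      exact key1 X (tope_of hX hX0)
    · intro hX
      obtain ⟨f, hf, hXf⟩ := (hv X).1 hX
      -- a tope with the least number of differences
      obtain ⟨T0, hT0⟩ := exists_tope hL
      obtain ⟨T, hT, hmin⟩ : ∃ T, IsTope L T ∧ ∀ R, IsTope L R → dist T X ≤ dist R X := by
        have hne : ∃ n, ∃ T, IsTope L T ∧ dist T X = n := ⟨_, T0, hT0, rfl⟩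
        classical
        obtain ⟨T, hT, hTd⟩ := Nat.find_spec hne
        refine ⟨T, hT, fun R hR => ?_⟩
        rw [hTd]
        exact Nat.find_min' hne ⟨R, hR, rfl⟩
      have hT1 := tope_supp hL hs hT
      have hw : ∀ i, Wall L T i → 0 < (T i : ℝ) * f i := by
        intro i hi
        rw [REA_sign (hT1 i), ← hXf]
        by_contra hne
        have h1 : T i ≠ X i := fun h => hne h.symm
        have h2 : -T i = X i := by
          rw [sne (hT1 i) (hX0 i) h1, neg_neg]
        exact absurd (hmin (fl T i) hi) (not_le.2 (REA_dist h1 h2))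
      have hall := hSGN E L F hG hCD f ((hW f).1 hf) T hT hw
      have hTX : X = T := by
        funext e
        rw [hXf e]
        exact (REA_sign (hT1 e) _).1 (hall e)
      rw [hTX]
      exact hT.1

end Pool.Agent.helper66.SL
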