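import Pool.Agent.helper66.SL.SpecA

/-!
# sl:STI — induction in the star of a covector
-/

set_option autoImplicit false

namespace Pool.Agent.helper66.SL

open Pool.Agent.helper52.FC

theorem STI_dist {E : Type} [Finite E] {T R : E → SignType} {e : E} (h : T e ≠ R e) (h' : -T e = R e) :
    dist (fl T e) R < dist T R := by
  unfold dist
  refine Set.ncard_lt_ncard ⟨?_, ?_⟩ (Set.toFinite _)
  · intro g hg
    by_cases hge : g = e
    · rw [hge]
      exact h
    · have h1 : fl T e g ≠ R g := hg
      rw [fl_ne T hge] at h1
      exact h1
  · intro hs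
    have h1 : e ∈ {g | fl T e g ≠ R g} := hs h
    have h2 : fl T e e ≠ R e := h1
    rw [fl_same] at h2
    exact h2 h'

theorem STI_aux (hGEO : GEO) {E : Type} [Finite E] {L : Set (E → SignType)} (hL : IsOM L) (hs : IsSimple L)
    {X : E → SignType} {Q : (E → SignType) → Prop}
    (step : ∀ S, IsTope L S → Le X S → Q S → ∀ e, Wall L S e → X e = 0 → Q (fl S e))
    {R : E → SignType} (hR : IsTope L R) (hXR : Le X R) :
    ∀ (n : ℕ) (T : E → SignType), dist T R = n → IsTope L T → Le X T → Q T → Q R := by
  intro n
  induction n using Nat.strong_induction_on with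
  | _ n ih =>
    intro T hn hT hXT hQ
    by_cases hTR : T = R
    · rw [← hTR]
      exact hQ
    · obtain ⟨e, he, hne⟩ := hGEO E L hL hs T R hT hR hTR
      have hXe : X e = 0 := by
        rcases hXT e with h1 | h1
        · exact h1
        · rcases hXR e with h2 | h2
          · exact h2
          · exact absurd (h1.symm.trans h2) hne
      have hle : Le X (fl T e) := by
        intro g
        by_cases hge : g = e
        · rw [hge]
          exact Or.inl hXe
        · rw [fl_ne T hge]
          exact hXT g
      have hflip : -T e = R e := by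
        have h1 := sne (tope_supp hL hs hT e) (tope_supp hL hs hR e) hne
        rw [h1, neg_neg]
      have hd := STI_dist hne hflip
      rw [hn] at hd
      exact ih _ hd (fl T e) rfl he hle (step T hT hXT hQ e he hXe)

theorem STI_proof (hGEO : GEO) : STI := by
  intro E _ L hL hs X _ Q T hT hXT hQ step R hR hXR
  exact STI_aux hGEO hL hs step hR hXR _ T rfl hT hXT hQ

end Pool.Agent.helper66.SL
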